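import Pool.Agent.Helper55.FR.GoalsA

/-!
# FIT: a labelling of a barrier is admissible and has no bad edge inside `B`
-/

namespace Pool.Agent.Helper26.FR

open Finset Pool.Agent.Helper55.FR

theorem not_bad {V : Type} [Fintype V] [DecidableEq V] {T I : Finset V} {Q : Finset (Finset V)}
    {f : V → Lab} (hf : Fit T I Q f) {x y : V} (h1 : x ∈ I → y ∈ T) (h2 : y ∈ I → x ∈ T)
    (h3 : ∀ K ∈ Q, x ∈ K → y ∈ K ∨ y ∈ T) (h4 : ∀ K ∈ Q, y ∈ K → x ∈ K ∨ x ∈ T) :
    ¬ bad (f x) (f y) := by
  rintro ⟨hx, hy, hxy⟩
  have hxT : x ∉ T := fun h => hx ((hf.fT x).2 h)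
  have hyT : y ∉ T := fun h => hy ((hf.fT y).2 h)
  have hxI : f x ≠ Lab.I := fun h => hyT (h1 ((hf.fI x).1 h))
  have hyI : f y ≠ Lab.I := fun h => hxT (h2 ((hf.fI y).1 h))
  have hne : f x ≠ f y := by
    rcases hxy with h | h
    · exact h
    · exact absurd h hxI
  by_cases hk : isK (f x)
  · obtain ⟨K, hK, hxK⟩ := (hf.fK x).1 hk
    rcases h3 K hK hxK with h | h
    · exact hne (hf.same K hK x hxK y h)
    · exact hyT h
  · by_cases hk' : isK (f y)
    · obtain ⟨K, hK, hyK⟩ := (hf.fK y).1 hk'
      rcases h4 K hK hyK with h | h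
      · exact hne (hf.same K hK x h y hyK)
      · exact hxT h
    · apply hne
      have hx0 : f x = Lab.O := by
        cases hfx : f x with
        | T => exact absurd hfx hx
        | I => exact absurd hfx hxI
        | K => exact absurd (Or.inl hfx) hk
        | L => exact absurd (Or.inr hfx) hk
        | O => rfl
      have hy0 : f y = Lab.O := by
        cases hfy : f y with
        | T => exact absurd hfy hy
        | I => exact absurd hfy hyI
        | K => exact absurd (Or.inl hfy) hk'
        | L => exact absurd (Or.inr hfy) hk'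
        | O => rfl
      rw [hx0, hy0]

theorem fit : FitStmt := by
  intro V _ _ n m B g T I Q f hC hB hP hf
  constructor
  · intro x
    refine not_bad hf ?_ ?_ ?_ ?_
    · intro h
      exact (hP.cI x h).1
    · intro h
      have := (hP.cI (n x) h).2.1
      simpa using this
    · intro K hK hx
      exact (hP.cK K hK x hx).1
    · intro K hK hx
      have := (hP.cK K hK (n x) hx).2.1
      simpa using this
  · rw [Finset.disjoint_left]
    intro x hx hxB
    have hbad : bad (f x) (f (m x)) := by
      simpa [Bad] using hx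
    have hmB : m x ∈ B := (hB x).1 hxB
    refine not_bad hf ?_ ?_ ?_ ?_ hbad
    · intro h
      exact (hP.cI x h).2.2 hxB
    · intro h
      have := (hP.cI (m x) h).2.2 hmB
      rwa [hC.mm] at this
    · intro K hK h
      exact (hP.cK K hK x h).2.2 hxB
    · intro K hK h
      have := (hP.cK K hK (m x) h).2.2 hmB
      rwa [hC.mm] at this

end Pool.Agent.Helper26.FR
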